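import Mathlib
import Pool.Agent.X116.Leg3

/-!
# There is no cubic Legendre multiplier sequence
-/

open Polynomial

namespace Pool.Agent.Results.MP_c471e0_an.NoCubic

/-- The Legendre polynomials by Rodrigues' formula. -/
noncomputable def legendre (n : ℕ) : ℝ[X] :=
  C (1 / (2 ^ n * (n.factorial : ℝ))) * derivative^[n] ((X ^ 2 - 1 : ℝ[X]) ^ n)

/-- For every real polynomial `q` of degree exactly `3` there is a real polynomial
`p = ∑ a_k P_k` with only real zeros such that `∑ q(k) a_k P_k` has a non-real zero. -/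
theorem result : ∀ q : ℝ[X], q.natDegree = 3 → ∃ (n : ℕ) (a : ℕ → ℝ),
    (∀ z : ℂ, aeval z (∑ k ∈ Finset.range (n + 1), C (a k) * legendre k) = 0 → z.im = 0) ∧
    (∑ k ∈ Finset.range (n + 1), C (q.eval (k : ℝ) * a k) * legendre k) ≠ 0 ∧
    ∃ z : ℂ, z.im ≠ 0 ∧
      aeval z (∑ k ∈ Finset.range (n + 1), C (q.eval (k : ℝ) * a k) * legendre k) = 0 := by
  intro q hq
  by_contra hcon
  push Not at hcon
  have hL := Pool.Agent.X116.Leg.main q legendre (fun n => rfl) ?_
  · obtain ⟨A, hA⟩ := hL
    have hdeg : (X * (X + 1) : ℝ[X]).natDegree = 2 := by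
      have h1 : (X + 1 : ℝ[X]).natDegree = 1 := by
        have := natDegree_X_add_C (1 : ℝ)
        simpa using this
      rw [natDegree_mul X_ne_zero (by intro h; rw [h] at h1; simp at h1), natDegree_X, h1]
    rw [hA, natDegree_comp, hdeg] at hq
    omega
  · intro n a hne ha
    by_cases h0 : (∑ k ∈ Finset.range (n + 1), C (q.eval (k : ℝ) * a k) * legendre k) = 0
    · left
      exact h0
    · rcases ha with ha | ha
      · exact absurd ha hne
      · right
        intro z hz
        by_contra him
        exact hcon n a ha h0 z him hz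

end Pool.Agent.Results.MP_c471e0_an.NoCubic
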